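import Pool.Agent.Run7.h965.SumProd

/-!
# All finite sums and all finite products of a sum subsystem are gaps between consecutive primes

Let `d_0, d_1, …` be any sequence of positive integers.  There are nonempty finite sets `W_0 < W_1 < …`
of indices such that, with `y_i` the sum of the `d_a`, `a ∈ W_i`:

* ALL finite sums `∑_{i ∈ F} y_i` and ALL finite products `∏_{i ∈ F} y_i`, `F` nonempty and finite, are
  gaps between two consecutive primes `p < p'`, infinitely often, with `p` in a given residue class and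
  with no other prime within any given distance `R` of `p`;
* more generally, for every function `h` given in advance, every `k` and all nonempty finite
  `F_0 < F_1 < …`, the vector `(c x_0, c x_1, …, c x_{k-1})`, where `x_l` is the sum of the `y_i`, `i ∈ F_l`,
  is a vector of `k` consecutive prime gaps (in the same sense) for every `c ≥ 1` which is at most `h (b)`
  for an element `b` of a block `W_i` with `i` below `F_0` (so `c` can be any number bounded by a given
  function of `y_0, …, y_i`, for instance a product of some of these numbers), and for `c = 1`.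

The theorem does this for countably many sequences `d_j`, moduli `q_j` and residues `r_j` with the same
`W_i` (the sets `F_l` being taken in `[j, ∞)` for the `j`-th sequence).

The theorem without products and multipliers (`c = 1`, `Pool.Agent.W68.Gap.main_gaps`) is from the
starting files.
-/

set_option autoImplicit false

namespace Pool.Agent.Results.MP_3ec731_nt.SumsAndProducts

open Finset

/-- For every `R` there are infinitely many primes `n ≡ r` modulo `q` such that the primes within
distance `R` of `n` are exactly the numbers `n, n + g 0, n + g 0 + g 1, …, n + g 0 + … + g (k - 1)` within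
this distance: `g 0, …, g (k - 1)` are the gaps between `k + 1` consecutive primes, isolated on both
sides. -/
def ConsecutiveGaps (q : ℕ) (r : ℤ) (k : ℕ) (g : ℕ → ℕ) : Prop :=
  ∀ R : ℕ, {n : ℕ | (n : ℤ) ≡ r [ZMOD q] ∧ ∀ y : ℤ, |y| ≤ R →
    (Nat.Prime ((n : ℤ) + y).toNat ↔ ∃ m ≤ k, y = ∑ l ∈ range m, (g l : ℤ))}.Infinite

theorem result (d : ℕ → ℕ → ℕ) (hd : ∀ j a, 1 ≤ d j a) (q : ℕ → ℕ) (hq : ∀ j, 1 ≤ q j)
    (r : ℕ → ℤ) (hr : ∀ j, IsCoprime (r j) (q j : ℤ)) (h : ℕ → ℕ) :
    ∃ W : ℕ → Finset ℕ, (∀ i, (W i).Nonempty) ∧ (∀ i, ∀ a ∈ W i, ∀ b ∈ W (i + 1), a < b) ∧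
      -- all finite sums and all finite products
      (∀ (j : ℕ) (F : Finset ℕ), F.Nonempty → (∀ i ∈ F, j ≤ i) →
        ConsecutiveGaps (q j) (r j) 1 (fun _ => ∑ i ∈ F, ∑ a ∈ W i, d j a) ∧
        ConsecutiveGaps (q j) (r j) 1 (fun _ => ∏ i ∈ F, ∑ a ∈ W i, d j a)) ∧
      -- vectors of sums, and their multiples
      ∀ (j k : ℕ) (F : ℕ → Finset ℕ), (∀ l < k, (F l).Nonempty) → (∀ l < k, ∀ i ∈ F l, j ≤ i) →
        (∀ l, l + 1 < k → ∀ i ∈ F l, ∀ i' ∈ F (l + 1), i < i') →
        ∀ c : ℕ, 1 ≤ c → (c = 1 ∨ ∃ i, ∃ b ∈ W i, c ≤ h b ∧ ∀ i' ∈ F 0, i < i') →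
          ConsecutiveGaps (q j) (r j) k (fun l => c * ∑ i ∈ F l, ∑ a ∈ W i, d j a) :=
  Pool.Agent.Run7.h965.SP.main d hd q hq r hr h

end Pool.Agent.Results.MP_3ec731_nt.SumsAndProducts
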